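import Pool.Agent.W307.FK.Stm
import Pool.Agent.W135.RT.Par6b

/-!
# Project FK, part PARF: parametrisation of the curves with full rational 2-torsion
-/

set_option autoImplicit false

namespace Pool.Agent.W513.FK

open Pool.Agent.W307.RT Pool.Agent.W307.FK Pool.Agent.W135.RT

/-- the relation between the curve and the parameters -/
def Rl (c : ℤ × ℤ) (f : ℕ × ℤ × ℤ) : Prop :=
  1 ≤ f.1 ∧ IsCoprime f.2.1 f.2.2 ∧ f.2.1 ≠ 0 ∧ f.2.2 ≠ 0 ∧ f.2.1 ≠ f.2.2 ∧ ∃ e1 e2 e3 : ℤ,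
      (∀ x : ℤ, x ^ 3 + c.1 * x + c.2 = (x - e1) * (x - e2) * (x - e3)) ∧
      e2 - e1 = f.1 * f.2.1 ∧ e3 - e1 = f.1 * f.2.2

theorem exRl (c : ℤ × ℤ) (hD : 4 * c.1 ^ 3 + 27 * c.2 ^ 2 ≠ 0) (hT : HasT 2 (Sh c.1 c.2)) :
    ∃ f, Rl c f := by
  obtain ⟨A, B⟩ := c
  change 4 * A ^ 3 + 27 * B ^ 2 ≠ 0 at hD
  obtain ⟨P, Q, hP, hQ, hQP⟩ := hT
  obtain ⟨e1, he1, hPe1, h1⟩ := ord2 _ hP
  obtain ⟨e2, he2, hQe2, h2⟩ := ord2 _ hQ
  have h12 : e1 ≠ e2 := by
    intro h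
    subst h
    apply hQP
    rw [hQe2, ← hPe1]
    exact AddSubgroup.mem_zmultiples P
  obtain ⟨i, hi⟩ := int_root h1
  obtain ⟨j, hj⟩ := int_root h2
  rw [hi] at h1
  rw [hj] at h2
  have h1' : i ^ 3 + A * i + B = 0 := by exact_mod_cast h1
  have h2' : j ^ 3 + A * j + B = 0 := by exact_mod_cast h2
  have hij : i ≠ j := fun h => h12 (by rw [hi, hj, h])
  have hA : A = -(i ^ 2 + i * j + j ^ 2) := by
    have : (i - j) * (i ^ 2 + i * j + j ^ 2 + A) = 0 := by linear_combination h1' - h2'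
    have := (mul_eq_zero.mp this).resolve_left (sub_ne_zero.mpr hij)
    linarith
  have hB : B = i * j * (i + j) := by
    rw [hA] at h1'; linear_combination h1'
  obtain ⟨k, hk⟩ : ∃ k : ℤ, k = -i - j := ⟨_, rfl⟩
  have hdisc : 4 * A ^ 3 + 27 * B ^ 2 = -((i - j) ^ 2 * (i - k) ^ 2 * (j - k) ^ 2) := by
    rw [hA, hB, hk]; ring
  have hki : k ≠ i := by
    intro h; apply hD; rw [hdisc, h]; ring
  have hkj : k ≠ j := by
    intro h; apply hD; rw [hdisc, h]; ring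
  have hg : 0 < Int.gcd (j - i) (k - i) :=
    Int.gcd_pos_of_ne_zero_left _ (sub_ne_zero.mpr hij.symm)
  obtain ⟨a, b, hab, ha, hb⟩ := Int.exists_gcd_one hg
  refine ⟨(Int.gcd (j - i) (k - i), a, b), hg, Int.isCoprime_iff_gcd_eq_one.mpr hab, ?_, ?_, ?_,
    i, j, k, ?_, ?_, ?_⟩
  · rintro h
    change a = 0 at h
    rw [h, zero_mul] at ha
    exact hij (by linarith)
  · rintro h
    change b = 0 at h
    rw [h, zero_mul] at hb
    exact hki (by linarith)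
  · rintro h
    change a = b at h
    rw [h, ← hb] at ha
    exact hkj (by linarith)
  · intro x
    change x ^ 3 + A * x + B = _
    rw [hA, hB, hk]; ring
  · change j - i = (Int.gcd (j - i) (k - i) : ℤ) * a
    rw [mul_comm]; exact ha
  · change k - i = (Int.gcd (j - i) (k - i) : ℤ) * b
    rw [mul_comm]; exact hb

theorem Rl_inj {c c' : ℤ × ℤ} {f : ℕ × ℤ × ℤ} (h : Rl c f) (h' : Rl c' f) : c = c' := by
  obtain ⟨A, B⟩ := c
  obtain ⟨A', B'⟩ := c'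
  obtain ⟨g, M, N⟩ := f
  obtain ⟨-, -, -, -, -, e1, e2, e3, hx, h2, h3⟩ := h
  obtain ⟨-, -, -, -, -, e1', e2', e3', hx', h2', h3'⟩ := h'
  change ∀ x : ℤ, x ^ 3 + A * x + B = (x - e1) * (x - e2) * (x - e3) at hx
  change ∀ x : ℤ, x ^ 3 + A' * x + B' = (x - e1') * (x - e2') * (x - e3') at hx'
  change e2 - e1 = g * M at h2
  change e3 - e1 = g * N at h3
  change e2' - e1' = g * M at h2'
  change e3' - e1' = g * N at h3'
  have a0 := hx 0
  have a1 := hx 1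
  have a2 := hx (-1)
  have b0 := hx' 0
  have b1 := hx' 1
  have b2 := hx' (-1)
  have s : e1 + e2 + e3 = 0 := by
    have : 2 * (e1 + e2 + e3) = 0 := by linear_combination a1 + a2 - 2 * a0
    linarith
  have s' : e1' + e2' + e3' = 0 := by
    have : 2 * (e1' + e2' + e3') = 0 := by linear_combination b1 + b2 - 2 * b0
    linarith
  have q1 : e1 = e1' := by linarith
  have q2 : e2 = e2' := by linarith
  have q3 : e3 = e3' := by linarith
  subst q1 q2 q3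
  have hB : B = B' := by linarith
  have hA : A = A' := by linarith
  rw [hA, hB]

theorem parf : PARF := by
  classical
  have H : ∀ c : ℤ × ℤ, ∃ f : ℕ × ℤ × ℤ, 4 * c.1 ^ 3 + 27 * c.2 ^ 2 ≠ 0 →
      HasT 2 (Sh c.1 c.2) → Rl c f := by
    intro c
    by_cases h : 4 * c.1 ^ 3 + 27 * c.2 ^ 2 ≠ 0 ∧ HasT 2 (Sh c.1 c.2)
    · obtain ⟨f, hf⟩ := exRl c h.1 h.2
      exact ⟨f, fun _ _ => hf⟩
    · exact ⟨(0, 0, 0), fun h1 h2 => absurd ⟨h1, h2⟩ h⟩
  choose F hF using H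
  refine ⟨F, ?_, fun c h1 h2 => hF c h1 h2⟩
  intro c hc c' hc' hcc
  have r := hF c hc.1 hc.2
  have r' := hF c' hc'.1 hc'.2
  rw [← hcc] at r'
  exact Rl_inj r r'

end Pool.Agent.W513.FK
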